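import Pool.Agent.L0h40.EQ.Def

set_option autoImplicit false

/-!
# Types of members of the algebra, invariants
-/

namespace Pool.Agent.L0h40.EQ

open Set

variable {G X : Type} [Group G] [MulAction G X] {𝒜 : InvAlgebra G X}

/-- `A × {0}` -/
def base (A : Set X) : Set (X × ℕ) := A ×ˢ {0}

theorem mem_base {A : Set X} {p : X × ℕ} : p ∈ base A ↔ p.1 ∈ A ∧ p.2 = 0 := by
  unfold base
  rw [mem_prod, mem_singleton_iff]

theorem base_star {A : Set X} (hA : A ∈ 𝒜.sets) : base A ∈ 𝒜.star := by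
  rw [mem_star_iff]
  refine ⟨⟨1, fun p hp => ?_⟩, fun m => ?_⟩
  · rw [(mem_base.1 hp).2]; exact Nat.one_pos
  · by_cases hm : m = 0
    · have : {x | (x, m) ∈ base A} = A := by
        ext x
        rw [mem_ofPred_eq, mem_base]
        exact ⟨fun h => h.1, fun h => ⟨h, hm⟩⟩
      rw [this]; exact hA
    · have : {x | (x, m) ∈ base A} = ∅ := by
        ext x
        rw [mem_ofPred_eq, mem_base]
        exact ⟨fun h => hm h.2, fun h => h.elim⟩
      rw [this]; exact 𝒜.empty_mem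

theorem base_smul (g : G) {A : Set X} (hA : A ∈ 𝒜.sets) :
    𝒜.Equidec (base A) (base ((fun x => g • x) '' A)) := by
  refine equidec_of (ι := Unit) (fun _ => base A) (fun _ => (g, 1)) (fun _ => base_star hA)
    (fun i j h => (h rfl).elim) (fun i j h => (h rfl).elim) (iUnion_const _) ?_
  rw [iUnion_const]
  ext p
  rw [mem_base]
  constructor
  · rintro ⟨q, hq, rfl⟩
    rw [mem_base] at hq
    exact ⟨⟨q.1, hq.1, rfl⟩, hq.2⟩
  · rintro ⟨⟨x, hx, hxp⟩, hp2⟩
    exact ⟨(x, 0), mem_base.2 ⟨hx, rfl⟩, Prod.ext hxp hp2.symm⟩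

/-- the type of a member of the algebra -/
def ty (𝒜 : InvAlgebra G X) (A : Set X) (hA : A ∈ 𝒜.sets) : 𝒜.Types :=
  𝒜.type (base A) (base_star hA)

theorem ty_smul (g : G) {A B : Set X} (hA : A ∈ 𝒜.sets) (hB : B ∈ 𝒜.sets)
    (h : (fun x => g • x) '' A = B) : ty 𝒜 A hA = ty 𝒜 B hB := by
  subst h
  exact (type_eq _ _).2 (base_smul g hA)

theorem ty_union {A B C : Set X} (hA : A ∈ 𝒜.sets) (hB : B ∈ 𝒜.sets) (hC : C ∈ 𝒜.sets)
    (hd : Disjoint A B) (h : A ∪ B = C) : ty 𝒜 A hA + ty 𝒜 B hB = ty 𝒜 C hC := by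
  subst h
  have hd' : Disjoint (base A) (base B) := by
    rw [Set.disjoint_left]
    intro p hp hq
    exact Set.disjoint_left.1 hd (mem_base.1 hp).1 (mem_base.1 hq).1
  unfold ty
  rw [add_type_of_disjoint _ _ hd', type_eq]
  have : base A ∪ base B = base (A ∪ B) := by
    ext p
    rw [mem_union, mem_base, mem_base, mem_base, mem_union]
    tauto
  rw [this]
  exact equidec_refl (base_star hC)

theorem measure_iUnion {N : Type} [AddCommGroup N] (μ : Set X → N) (h0 : μ ∅ = 0)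
    (hadd : ∀ A ∈ 𝒜.sets, ∀ B ∈ 𝒜.sets, Disjoint A B → μ (A ∪ B) = μ A + μ B)
    {k : ℕ} (Q : Fin k → Set X) (hQ : ∀ i, Q i ∈ 𝒜.sets)
    (hd : ∀ i j, i ≠ j → Disjoint (Q i) (Q j)) : μ (⋃ i, Q i) = ∑ i, μ (Q i) := by
  classical
  have : ∀ s : Finset (Fin k), (⋃ i ∈ s, Q i) ∈ 𝒜.sets ∧ μ (⋃ i ∈ s, Q i) = ∑ i ∈ s, μ (Q i) := by
    intro s
    induction s using Finset.induction_on with
    | empty => simpa using ⟨𝒜.empty_mem, h0⟩
    | insert a s ha ih =>
      rw [Finset.set_biUnion_insert, Finset.sum_insert ha]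
      refine ⟨𝒜.union_mem _ (hQ a) _ ih.1, ?_⟩
      rw [hadd _ (hQ a) _ ih.1, ih.2]
      rw [Set.disjoint_iUnion₂_right]
      intro i hi
      exact hd a i (fun h => ha (h ▸ hi))
  simpa using (this Finset.univ).2

/-- invariant additive set functions with values in a group are invariants of the type -/
theorem invariant_eq {N : Type} [AddCommGroup N] (μ : Set X → N) (h0 : μ ∅ = 0)
    (hadd : ∀ A ∈ 𝒜.sets, ∀ B ∈ 𝒜.sets, Disjoint A B → μ (A ∪ B) = μ A + μ B)
    (hinv : ∀ g : G, ∀ A ∈ 𝒜.sets, μ ((fun x => g • x) '' A) = μ A)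
    {A B : Set X} (h : 𝒜.Equidec (base A) (base B)) : μ A = μ B := by
  obtain ⟨k, P, h, hP, hd, hA, hd', hB⟩ := h
  have hPA : ∀ i, P i ⊆ base A := fun i => by rw [← hA]; exact subset_iUnion P i
  have hPB : ∀ i, act (h i) '' P i ⊆ base B := fun i => by
    rw [← hB]; exact subset_iUnion (fun i => act (h i) '' P i) i
  have hQ : ∀ i, {x | (x, 0) ∈ P i} ∈ 𝒜.sets := fun i => (mem_star_iff.1 (hP i)).2 0
  have hR : ∀ i, {x | (x, 0) ∈ act (h i) '' P i} = (fun x => (h i).1 • x) '' {x | (x, 0) ∈ P i} := by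
    intro i
    ext x
    constructor
    · rintro ⟨p, hp, he⟩
      have h2 : p.2 = 0 := (mem_base.1 (hPA i hp)).2
      refine ⟨p.1, ?_, congrArg Prod.fst he⟩
      rw [mem_ofPred_eq, ← h2]
      exact hp
    · rintro ⟨y, hy, rfl⟩
      have h3 := (mem_base.1 (hPB i ⟨_, hy, rfl⟩)).2
      exact ⟨_, hy, Prod.ext rfl h3⟩
  have hQA : (⋃ i, {x | (x, 0) ∈ P i}) = A := by
    ext x
    rw [mem_iUnion]
    constructor
    · rintro ⟨i, hi⟩
      exact (mem_base.1 (hPA i hi)).1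
    · intro hx
      have : (x, 0) ∈ base A := mem_base.2 ⟨hx, rfl⟩
      rw [← hA] at this
      obtain ⟨i, hi⟩ := mem_iUnion.1 this
      exact ⟨i, hi⟩
  have hRB : (⋃ i, {x | (x, 0) ∈ act (h i) '' P i}) = B := by
    ext x
    rw [mem_iUnion]
    constructor
    · rintro ⟨i, hi⟩
      exact (mem_base.1 (hPB i hi)).1
    · intro hx
      have : (x, 0) ∈ base B := mem_base.2 ⟨hx, rfl⟩
      rw [← hB] at this
      obtain ⟨i, hi⟩ := mem_iUnion.1 this
      exact ⟨i, hi⟩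
  rw [← hQA, ← hRB, measure_iUnion (𝒜 := 𝒜) μ h0 hadd _ hQ, measure_iUnion (𝒜 := 𝒜) μ h0 hadd]
  · refine Finset.sum_congr rfl fun i _ => ?_
    rw [hR, hinv _ _ (hQ i)]
  · intro i
    rw [hR]
    exact 𝒜.smul_mem _ _ (hQ i)
  · intro i j hij
    rw [Set.disjoint_left]
    intro x hx hy
    exact Set.disjoint_left.1 (hd' i j hij) hx hy
  · intro i j hij
    rw [Set.disjoint_left]
    intro x hx hy
    exact Set.disjoint_left.1 (hd i j hij) hx hy

end Pool.Agent.L0h40.EQ
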