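import Pool.Agent.L0h40.EQ.Base

set_option autoImplicit false

/-!
# Half circles under the infinite dihedral group
-/

namespace Pool.Agent.L0h40.EQ

open Set MeasureTheory

/-- the circle `ℝ / ℤ` -/
abbrev Circ : Type := AddCircle (1 : ℝ)

/-- the reflection `x ↦ 2 c - x` of the circle, with the fixed points `c` and `c + 1/2` -/
def reflection (c : Circ) : Equiv.Perm Circ := Equiv.subLeft (c + c)

/-- the group generated by the reflections `x ↦ -x` and `x ↦ 2 τ - x` -/
def Dih (τ : Circ) : Subgroup (Equiv.Perm Circ) :=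
  Subgroup.closure {reflection 0, reflection τ}

/-- the open half circle from `c` to `c + 1/2` -/
def halfCircle (c : Circ) : Set Circ := {x | ∃ t : ℝ, 0 < t ∧ t < 1 / 2 ∧ x = c + (t : Circ)}

theorem reflection_apply (c x : Circ) : reflection c x = c + c - x := rfl

theorem reflection_reflection (c x : Circ) : reflection c (reflection c x) = x := by
  rw [reflection_apply, reflection_apply]; abel

theorem reflection_inv (c : Circ) : (reflection c)⁻¹ = reflection c := by
  rw [inv_eq_iff_mul_eq_one]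
  ext x
  exact reflection_reflection c x

theorem exists_rep (x : Circ) : ∃ t : ℝ, 0 ≤ t ∧ t < 1 ∧ (t : Circ) = x := by
  have h := AddCircle.coe_image_Ico_eq (1 : ℝ) 0
  have hx : x ∈ ((↑) : ℝ → AddCircle (1:ℝ)) '' Ico 0 (0 + 1) := by rw [h]; trivial
  obtain ⟨t, ht, rfl⟩ := hx
  exact ⟨t, ht.1, by simpa using ht.2, rfl⟩

theorem rep_inj {s t : ℝ} (hs : 0 ≤ s) (hs1 : s < 1) (ht : 0 ≤ t) (ht1 : t < 1)
    (h : (s : Circ) = t) : s = t := by
  refine (AddCircle.coe_eq_coe_iff_of_mem_Ico (p := (1:ℝ)) (a := 0) ?_ ?_).1 h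
  · exact ⟨hs, by simpa using hs1⟩
  · exact ⟨ht, by simpa using ht1⟩

theorem one_eq_zero : ((1 : ℝ) : Circ) = 0 := AddCircle.coe_period 1

theorem neg_coe (t : ℝ) : (-(t : Circ)) = ((1 - t : ℝ) : Circ) := by
  rw [AddCircle.coe_sub, one_eq_zero, zero_sub]

theorem half_add_half : ((1 / 2 : ℝ) : Circ) + ((1 / 2 : ℝ) : Circ) = 0 := by
  rw [← AddCircle.coe_add]
  norm_num

theorem disj_half (c : Circ) : ∀ x ∈ halfCircle c, reflection c x ∉ halfCircle c := by
  rintro _ ⟨t, ht0, ht1, rfl⟩ ⟨s, hs0, hs1, h⟩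
  rw [reflection_apply] at h
  have h1 : (-(t : Circ)) = (s : Circ) := by
    have : c + (-(t : Circ)) = c + (s : Circ) := by rw [← h]; abel
    exact add_left_cancel this
  rw [neg_coe] at h1
  have := rep_inj (by linarith) (by linarith) (by linarith) (by linarith) h1
  linarith

theorem cover_half (c x : Circ) : x ∈ halfCircle c ∨ reflection c x ∈ halfCircle c ∨ x = c ∨
    x = c + ((1 / 2 : ℝ) : Circ) := by
  obtain ⟨t, ht0, ht1, ht⟩ := exists_rep (x - c)
  have hx : x = c + (t : Circ) := by rw [ht]; abel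
  rcases lt_trichotomy t (1 / 2) with h | h | h
  · rcases eq_or_lt_of_le ht0 with h0 | h0
    · right; right; left
      rw [hx, ← h0]
      simp
    · left
      exact ⟨t, h0, h, hx⟩
  · right; right; right
    rw [hx, h]
  · right; left
    refine ⟨1 - t, by linarith, by linarith, ?_⟩
    rw [reflection_apply, hx, ← neg_coe]
    abel

theorem center_notMem (c : Circ) : c ∉ halfCircle c := by
  rintro ⟨t, ht0, ht1, h⟩
  have h1 : ((0 : ℝ) : Circ) = (t : Circ) := by
    have : c + ((0 : ℝ) : Circ) = c + (t : Circ) := by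
      rw [← h]; simp
    exact add_left_cancel this
  have := rep_inj le_rfl (by norm_num) (by linarith) (by linarith) h1
  linarith

theorem anti_notMem (c : Circ) : c + ((1 / 2 : ℝ) : Circ) ∉ halfCircle c := by
  rintro ⟨t, ht0, ht1, h⟩
  have h1 := rep_inj (by norm_num) (by norm_num) (by linarith) (by linarith)
    (add_left_cancel h)
  linarith

theorem reflection_center (c : Circ) : reflection c c = c := by
  rw [reflection_apply]; abel

theorem reflection_anti (c : Circ) :
    reflection c (c + ((1 / 2 : ℝ) : Circ)) = c + ((1 / 2 : ℝ) : Circ) := by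
  rw [reflection_apply]
  have h : -((1 / 2 : ℝ) : Circ) = ((1 / 2 : ℝ) : Circ) := by
    rw [neg_coe]; norm_num
  calc c + c - (c + ((1 / 2 : ℝ) : Circ)) = c + -((1 / 2 : ℝ) : Circ) := by abel
    _ = _ := by rw [h]

theorem reflection_image (c : Circ) : reflection c '' halfCircle c =
    {x | reflection c x ∈ halfCircle c} := by
  ext x
  constructor
  · rintro ⟨y, hy, rfl⟩
    rw [mem_ofPred_eq, reflection_reflection]
    exact hy
  · intro hx
    exact ⟨_, hx, reflection_reflection c x⟩

theorem union_half (c : Circ) : halfCircle c ∪ reflection c '' halfCircle c =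
    (univ \ {c}) \ {c + ((1 / 2 : ℝ) : Circ)} := by
  rw [reflection_image]
  ext x
  simp only [mem_union, mem_ofPred_eq, mem_sdiff, mem_univ, true_and, mem_singleton_iff]
  constructor
  · rintro (h | h)
    · refine ⟨?_, ?_⟩
      · rintro rfl; exact center_notMem _ h
      · rintro rfl; exact anti_notMem _ h
    · refine ⟨?_, ?_⟩
      · rintro rfl
        rw [reflection_center] at h
        exact center_notMem _ h
      · rintro rfl
        rw [reflection_anti] at h
        exact anti_notMem _ h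
  · rintro ⟨h1, h2⟩
    rcases cover_half c x with h | h | h | h
    · exact Or.inl h
    · exact Or.inr h
    · exact (h1 h).elim
    · exact (h2 h).elim

theorem isOpen_half (c : Circ) : IsOpen (halfCircle c) := by
  have h1 : IsOpen ((fun t : ℝ => (t : Circ)) '' Ioo 0 (1 / 2)) :=
    QuotientAddGroup.isOpenMap_coe _ isOpen_Ioo
  have h2 : halfCircle c = (fun x => x - c) ⁻¹' ((fun t : ℝ => (t : Circ)) '' Ioo 0 (1 / 2)) := by
    ext x
    constructor
    · rintro ⟨t, h3, h4, rfl⟩
      exact ⟨t, ⟨h3, h4⟩, by simp⟩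
    · rintro ⟨t, ⟨h3, h4⟩, h5⟩
      refine ⟨t, h3, h4, ?_⟩
      simp only at h5
      rw [h5]; abel
  rw [h2]
  exact h1.preimage (by fun_prop)

theorem measurable_half (c : Circ) : MeasurableSet (halfCircle c) := (isOpen_half c).measurableSet

/-- the element of the group -/
def rot (τ : Circ) : Dih τ :=
  ⟨reflection τ * reflection 0, mul_mem (Subgroup.subset_closure (by simp))
    (Subgroup.subset_closure (by simp))⟩

theorem rot_smul (τ x : Circ) : rot τ • x = (τ + τ) + x := by
  show reflection τ (reflection 0 x) = _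
  rw [reflection_apply, reflection_apply]
  abel

theorem two_ne {τ : Circ} (hτ : addOrderOf τ = 0) {n : ℕ} (hn : n ≠ 0) : n • (τ + τ) ≠ 0 := by
  intro h
  rw [addOrderOf_eq_zero_iff'] at hτ
  refine hτ (2 * n) (by omega) ?_
  rw [← two_nsmul, smul_smul] at h
  rw [← h, mul_comm]

section types

variable {τ : Circ} {𝒜 : InvAlgebra (Dih τ) Circ}

theorem absorb (hτ : addOrderOf τ = 0) (hB : ∀ s, MeasurableSet s → s ∈ 𝒜.sets)
    (S : Set Circ) (hS : MeasurableSet S) (f : Circ) (hf : ∀ k : ℕ, k • (τ + τ) + f ∈ S)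
    (hS' : MeasurableSet (S \ {f})) :
    ty 𝒜 S (hB _ hS) = ty 𝒜 (S \ {f}) (hB _ hS') := by
  have hDc : (range fun k : ℕ => k • (τ + τ) + f).Countable := countable_range _
  have hD : MeasurableSet (range fun k : ℕ => k • (τ + τ) + f) := hDc.measurableSet
  have hTD : MeasurableSet ((fun x => rot τ • x) '' range fun k : ℕ => k • (τ + τ) + f) :=
    (hDc.image _).measurableSet
  have hfne : ∀ k : ℕ, (τ + τ) + (k • (τ + τ) + f) ≠ f := by
    intro k h
    refine two_ne hτ (Nat.succ_ne_zero k) ?_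
    rw [succ_nsmul]
    have : ((k • (τ + τ) + (τ + τ)) + f) = 0 + f := by
      rw [zero_add]
      calc _ = (τ + τ) + (k • (τ + τ) + f) := by abel
        _ = f := h
    exact add_right_cancel this
  have hTDeq : ((fun x => rot τ • x) '' range fun k : ℕ => k • (τ + τ) + f) =
      (range fun k : ℕ => k • (τ + τ) + f) \ {f} := by
    ext x
    constructor
    · rintro ⟨_, ⟨k, rfl⟩, rfl⟩
      simp only [rot_smul]
      refine ⟨⟨k + 1, ?_⟩, ?_⟩
      · simp only
        rw [succ_nsmul]; abel
      · exact hfne k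
    · rintro ⟨⟨k, rfl⟩, hk⟩
      rcases k with _ | k
      · exfalso
        apply hk
        simp
      · refine ⟨_, ⟨k, rfl⟩, ?_⟩
        simp only [rot_smul]
        rw [succ_nsmul]; abel
  have h1 := ty_union (𝒜 := 𝒜) (hB _ hD) (hB _ (hS.diff hD)) (hB _ hS) disjoint_sdiff_right
    (union_sdiff_cancel (by rintro _ ⟨k, rfl⟩; exact hf k))
  have h2 := ty_union (𝒜 := 𝒜) (hB _ hTD) (hB _ (hS.diff hD)) (hB _ hS') (by
    rw [hTDeq]
    exact disjoint_sdiff_right.mono_left sdiff_subset) (by
    rw [hTDeq]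
    ext x
    have hfD : f ∈ range fun k : ℕ => k • (τ + τ) + f := ⟨0, by simp⟩
    constructor
    · rintro (⟨⟨k, rfl⟩, h⟩ | ⟨h, h'⟩)
      · exact ⟨hf k, h⟩
      · refine ⟨h, ?_⟩
        rintro rfl
        exact h' hfD
    · rintro ⟨h, h'⟩
      by_cases hx : x ∈ range fun k : ℕ => k • (τ + τ) + f
      · exact Or.inl ⟨hx, h'⟩
      · exact Or.inr ⟨h, hx⟩)
  rw [← h1, ← h2, ty_smul (rot τ) (hB _ hD) (hB _ hTD) rfl]

theorem two_ty (hτ : addOrderOf τ = 0) (hB : ∀ s, MeasurableSet s → s ∈ 𝒜.sets) (c : Circ)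
    (hc : reflection c ∈ Dih τ) :
    ty 𝒜 (halfCircle c) (hB _ (measurable_half c)) + ty 𝒜 (halfCircle c) (hB _ (measurable_half c)) =
      ty 𝒜 univ 𝒜.univ_mem := by
  have hm : MeasurableSet (reflection c '' halfCircle c) := by
    rw [reflection_image]
    exact (measurable_half c).preimage (f := fun x => c + c - x) (by fun_prop)
  have hm1 : MeasurableSet ((univ : Set Circ) \ {c}) := MeasurableSet.univ.diff (measurableSet_singleton c)
  have hm2 : MeasurableSet (((univ : Set Circ) \ {c}) \ {c + ((1 / 2 : ℝ) : Circ)}) :=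
    hm1.diff (measurableSet_singleton _)
  have h1 : ty 𝒜 (halfCircle c) (hB _ (measurable_half c)) = ty 𝒜 _ (hB _ hm) :=
    ty_smul (⟨reflection c, hc⟩ : Dih τ) _ _ rfl
  have h2 := ty_union (𝒜 := 𝒜) (hB _ (measurable_half c)) (hB _ hm) (hB _ hm2) (by
    rw [Set.disjoint_left]
    intro x hx hx'
    rw [reflection_image] at hx'
    exact disj_half c x hx hx') (union_half c)
  have h3 := absorb (𝒜 := 𝒜) hτ hB univ MeasurableSet.univ c (fun _ => mem_univ _) hm1
  have h4 := absorb (𝒜 := 𝒜) hτ hB _ hm1 (c + ((1 / 2 : ℝ) : Circ)) (by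
    intro k
    refine ⟨mem_univ _, ?_⟩
    intro h
    have h5 : k • (τ + τ) + ((1 / 2 : ℝ) : Circ) = 0 := by
      have : c + (k • (τ + τ) + ((1 / 2 : ℝ) : Circ)) = c + 0 := by
        rw [add_zero]
        calc _ = k • (τ + τ) + (c + ((1 / 2 : ℝ) : Circ)) := by abel
          _ = c := h
      exact add_left_cancel this
    have h6 : (2 * k) • (τ + τ) = 0 := by
      have : 2 • (k • (τ + τ) + ((1 / 2 : ℝ) : Circ)) = 0 := by rw [h5, smul_zero]
      rw [smul_add, two_nsmul ((1 / 2 : ℝ) : Circ), half_add_half, add_zero, smul_smul] at this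
      exact this
    by_cases hk : k = 0
    · subst hk
      rw [zero_smul, zero_add] at h5
      have h7 : ((1 / 2 : ℝ) : Circ) = ((0 : ℝ) : Circ) := by rw [h5]; simp
      have := rep_inj (by norm_num) (by norm_num) le_rfl (by norm_num) h7
      norm_num at this
    · exact two_ne hτ (by omega : 2 * k ≠ 0) h6) hm2
  calc _ = ty 𝒜 (halfCircle c) (hB _ (measurable_half c)) + ty 𝒜 _ (hB _ hm) := by rw [← h1]
    _ = _ := by rw [h2, ← h4, ← h3]

end types

end Pool.Agent.L0h40.EQ
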