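import Mathlib

set_option autoImplicit false

/-!
# Equidecomposability with restricted pieces and its type semigroup
-/

namespace Pool.Agent.L0h40.EQ

open Set

/-- a `G`-invariant subalgebra of the algebra of all subsets of `X` -/
structure InvAlgebra (G X : Type) [Group G] [MulAction G X] where
  /-- the members of the algebra -/
  sets : Set (Set X)
  empty_mem : ∅ ∈ sets
  univ_mem : Set.univ ∈ sets
  union_mem : ∀ A ∈ sets, ∀ B ∈ sets, A ∪ B ∈ sets
  inter_mem : ∀ A ∈ sets, ∀ B ∈ sets, A ∩ B ∈ sets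
  compl_mem : ∀ A ∈ sets, Aᶜ ∈ sets
  smul_mem : ∀ g : G, ∀ A ∈ sets, (fun x => g • x) '' A ∈ sets

variable {G X : Type} [Group G] [MulAction G X]

/-- the action of the pair `(g, π)` of `G* = G × Perm ℕ` on `X* = X × ℕ` -/
def act (h : G × Equiv.Perm ℕ) (p : X × ℕ) : X × ℕ := (h.1 • p.1, h.2 p.2)

/-- the family `𝒜*` of the sets `⋃_{m < n} A_m × {m}` with all `A_m` in `𝒜` -/
def InvAlgebra.star (𝒜 : InvAlgebra G X) : Set (Set (X × ℕ)) :=
  {S | ∃ (n : ℕ) (A : ℕ → Set X), (∀ m, m < n → A m ∈ 𝒜.sets) ∧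
    S = ⋃ m, ⋃ (_ : m < n), A m ×ˢ {m}}

/-- `A ∼ B`: equidecomposability in `𝒜` -/
def InvAlgebra.Equidec (𝒜 : InvAlgebra G X) (A B : Set (X × ℕ)) : Prop :=
  ∃ (k : ℕ) (P : Fin k → Set (X × ℕ)) (h : Fin k → G × Equiv.Perm ℕ),
    (∀ i, P i ∈ 𝒜.star) ∧ (∀ i j, i ≠ j → Disjoint (P i) (P j)) ∧ (⋃ i, P i) = A ∧
    (∀ i j, i ≠ j → Disjoint (act (h i) '' P i) (act (h j) '' P j)) ∧
    (⋃ i, act (h i) '' P i) = B

/-- the number of levels of `A`: the least `n` such that all levels of `A` are less than `n` -/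
noncomputable def level (A : Set (X × ℕ)) : ℕ := sInf {n | ∀ p ∈ A, p.2 < n}

/-- `B` with all levels shifted upward by `N` -/
def shift (N : ℕ) (B : Set (X × ℕ)) : Set (X × ℕ) := (fun p => (p.1, p.2 + N)) '' B

/-- the union of `A` and of `B` shifted above the levels of `A` -/
noncomputable def sumSet (A B : Set (X × ℕ)) : Set (X × ℕ) := A ∪ shift (level A) B

variable {𝒜 : InvAlgebra G X}

theorem mem_star_iff {S : Set (X × ℕ)} : S ∈ 𝒜.star ↔
    (∃ n, ∀ p ∈ S, p.2 < n) ∧ ∀ m, {x | (x, m) ∈ S} ∈ 𝒜.sets := by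
  constructor
  · rintro ⟨n, A, hA, rfl⟩
    have hmem : ∀ p : X × ℕ, p ∈ (⋃ m, ⋃ (_ : m < n), A m ×ˢ {m}) ↔ p.2 < n ∧ p.1 ∈ A p.2 := by
      intro p
      simp only [mem_iUnion, mem_prod, mem_singleton_iff, exists_prop]
      constructor
      · rintro ⟨m, h1, h2, h3⟩
        rw [h3]; exact ⟨h1, h2⟩
      · rintro ⟨h1, h2⟩
        exact ⟨p.2, h1, h2, rfl⟩
    refine ⟨⟨n, fun p hp => ((hmem p).1 hp).1⟩, fun m => ?_⟩
    by_cases hm : m < n
    · have : {x | (x, m) ∈ (⋃ m, ⋃ (_ : m < n), A m ×ˢ {m})} = A m := by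
        ext x
        rw [mem_ofPred_eq, hmem]
        exact ⟨fun h => h.2, fun h => ⟨hm, h⟩⟩
      rw [this]; exact hA m hm
    · have : {x | (x, m) ∈ (⋃ m, ⋃ (_ : m < n), A m ×ˢ {m})} = ∅ := by
        ext x
        rw [mem_ofPred_eq, hmem]
        exact ⟨fun h => hm h.1, fun h => h.elim⟩
      rw [this]; exact 𝒜.empty_mem
  · rintro ⟨⟨n, hn⟩, h⟩
    refine ⟨n, fun m => {x | (x, m) ∈ S}, fun m _ => h m, ?_⟩
    ext p
    simp only [mem_iUnion, mem_prod, mem_singleton_iff, exists_prop, mem_ofPred_eq]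
    constructor
    · intro hp
      exact ⟨p.2, hn p hp, hp, rfl⟩
    · rintro ⟨m, h1, h2, h3⟩
      rw [← h3] at h2
      exact h2

theorem act_inv_act (h : G × Equiv.Perm ℕ) (p : X × ℕ) : act h⁻¹ (act h p) = p := by
  simp [act]

theorem act_act_inv (h : G × Equiv.Perm ℕ) (p : X × ℕ) : act h (act h⁻¹ p) = p := by
  simp [act]

theorem act_mul (h k : G × Equiv.Perm ℕ) (p : X × ℕ) : act (h * k) p = act h (act k p) := by
  simp [act, mul_smul]

theorem act_one (p : X × ℕ) : act (1 : G × Equiv.Perm ℕ) p = p := by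
  simp [act]

theorem act_inj (h : G × Equiv.Perm ℕ) : Function.Injective (act h : X × ℕ → X × ℕ) :=
  Function.LeftInverse.injective (act_inv_act h)

theorem star_act (h : G × Equiv.Perm ℕ) {P : Set (X × ℕ)} (hP : P ∈ 𝒜.star) :
    act h '' P ∈ 𝒜.star := by
  rw [mem_star_iff] at hP ⊢
  obtain ⟨⟨n, hn⟩, hf⟩ := hP
  constructor
  · refine ⟨(Finset.range n).sup h.2 + 1, ?_⟩
    rintro _ ⟨p, hp, rfl⟩
    have h1 : h.2 p.2 ≤ (Finset.range n).sup h.2 :=
      Finset.le_sup (f := h.2) (Finset.mem_range.2 (hn p hp))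
    exact Nat.lt_succ_of_le h1
  · intro m
    have : {x | (x, m) ∈ act h '' P} = (fun x => h.1 • x) '' {x | (x, h.2.symm m) ∈ P} := by
      ext x
      constructor
      · rintro ⟨p, hp, he⟩
        have h1 : h.1 • p.1 = x := congrArg Prod.fst he
        have h2 : h.2 p.2 = m := congrArg Prod.snd he
        refine ⟨p.1, ?_, h1⟩
        rw [mem_ofPred_eq, ← h2, Equiv.symm_apply_apply]
        exact hp
      · rintro ⟨y, hy, rfl⟩
        exact ⟨_, hy, by simp [act]⟩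
    rw [this]
    exact 𝒜.smul_mem _ _ (hf _)

theorem star_inter {P Q : Set (X × ℕ)} (hP : P ∈ 𝒜.star) (hQ : Q ∈ 𝒜.star) :
    P ∩ Q ∈ 𝒜.star := by
  rw [mem_star_iff] at *
  obtain ⟨⟨n, hn⟩, hf⟩ := hP
  refine ⟨⟨n, fun p hp => hn p hp.1⟩, fun m => ?_⟩
  exact 𝒜.inter_mem _ (hf m) _ (hQ.2 m)

theorem star_union {P Q : Set (X × ℕ)} (hP : P ∈ 𝒜.star) (hQ : Q ∈ 𝒜.star) :
    P ∪ Q ∈ 𝒜.star := by
  rw [mem_star_iff] at *
  obtain ⟨⟨n, hn⟩, hf⟩ := hP
  obtain ⟨⟨k, hk⟩, hg⟩ := hQ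
  refine ⟨⟨max n k, ?_⟩, fun m => ?_⟩
  · rintro p (hp | hp)
    · exact lt_of_lt_of_le (hn p hp) (le_max_left _ _)
    · exact lt_of_lt_of_le (hk p hp) (le_max_right _ _)
  · exact 𝒜.union_mem _ (hf m) _ (hg m)

theorem star_empty : (∅ : Set (X × ℕ)) ∈ 𝒜.star := by
  rw [mem_star_iff]
  exact ⟨⟨0, fun p hp => hp.elim⟩, fun m => 𝒜.empty_mem⟩

theorem star_preimage (h : G × Equiv.Perm ℕ) {P : Set (X × ℕ)} (hP : P ∈ 𝒜.star) :
    {p | act h p ∈ P} ∈ 𝒜.star := by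
  have : {p | act h p ∈ P} = act h⁻¹ '' P := by
    ext p
    constructor
    · intro hp
      exact ⟨_, hp, act_inv_act h p⟩
    · rintro ⟨q, hq, rfl⟩
      rw [mem_ofPred_eq, act_act_inv]
      exact hq
  rw [this]
  exact star_act _ hP

/-- the part of `P` in the level `m` -/
theorem star_level (m : ℕ) {P : Set (X × ℕ)} (hP : P ∈ 𝒜.star) : {p ∈ P | p.2 = m} ∈ 𝒜.star := by
  rw [mem_star_iff] at *
  obtain ⟨⟨n, hn⟩, hf⟩ := hP
  refine ⟨⟨n, fun p hp => hn p hp.1⟩, fun k => ?_⟩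
  by_cases hk : k = m
  · have : {x | (x, k) ∈ {p ∈ P | p.2 = m}} = {x | (x, k) ∈ P} := by
      ext x
      exact ⟨fun h => h.1, fun h => ⟨h, hk⟩⟩
    rw [this]; exact hf k
  · have : {x | (x, k) ∈ {p ∈ P | p.2 = m}} = ∅ := by
      ext x
      exact ⟨fun h => hk h.2, fun h => h.elim⟩
    rw [this]; exact 𝒜.empty_mem

theorem equidec_of {ι : Type} [Fintype ι] (P : ι → Set (X × ℕ)) (h : ι → G × Equiv.Perm ℕ)
    (hP : ∀ i, P i ∈ 𝒜.star) (hd : ∀ i j, i ≠ j → Disjoint (P i) (P j))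
    (hd' : ∀ i j, i ≠ j → Disjoint (act (h i) '' P i) (act (h j) '' P j)) {A B : Set (X × ℕ)}
    (hA : (⋃ i, P i) = A) (hB : (⋃ i, act (h i) '' P i) = B) : 𝒜.Equidec A B := by
  classical
  let e : Fin (Fintype.card ι) ≃ ι := (Fintype.equivFin ι).symm
  refine ⟨Fintype.card ι, fun i => P (e i), fun i => h (e i), fun i => hP _,
    fun i j hij => hd _ _ (fun h => hij (e.injective h)), ?_,
    fun i j hij => hd' _ _ (fun h => hij (e.injective h)), ?_⟩
  · rw [← hA]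
    exact e.surjective.iUnion_comp P
  · rw [← hB]
    exact e.surjective.iUnion_comp (fun i => act (h i) '' P i)

theorem equidec_refl {A : Set (X × ℕ)} (hA : A ∈ 𝒜.star) : 𝒜.Equidec A A := by
  refine equidec_of (ι := Unit) (fun _ => A) (fun _ => 1) (fun _ => hA)
    (fun i j h => (h rfl).elim) (fun i j h => (h rfl).elim) (iUnion_const A) ?_
  rw [iUnion_const]
  ext p
  constructor
  · rintro ⟨q, hq, rfl⟩
    rw [act_one]; exact hq
  · intro hp
    exact ⟨p, hp, act_one p⟩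

theorem equidec_symm {A B : Set (X × ℕ)} (h : 𝒜.Equidec A B) : 𝒜.Equidec B A := by
  obtain ⟨k, P, h, hP, hd, hA, hd', hB⟩ := h
  have himg : ∀ i, act (h i)⁻¹ '' (act (h i) '' P i) = P i := by
    intro i
    ext p
    constructor
    · rintro ⟨_, ⟨q, hq, rfl⟩, rfl⟩
      rw [act_inv_act]; exact hq
    · intro hp
      exact ⟨_, ⟨p, hp, rfl⟩, act_inv_act _ p⟩
  refine ⟨k, fun i => act (h i) '' P i, fun i => (h i)⁻¹, fun i => star_act _ (hP i), hd', hB,
    ?_, ?_⟩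
  · intro i j hij
    rw [himg, himg]
    exact hd i j hij
  · rw [← hA]
    exact iUnion_congr himg

theorem equidec_trans {A B C : Set (X × ℕ)} (h1 : 𝒜.Equidec A B) (h2 : 𝒜.Equidec B C) :
    𝒜.Equidec A C := by
  obtain ⟨k, P, h, hP, hd, hA, hd', hB⟩ := h1
  obtain ⟨l, Q, g, hQ, he, hB', he', hC⟩ := h2
  have hPA : ∀ i, ∀ p ∈ P i, act (h i) p ∈ B := by
    intro i p hp
    rw [← hB]
    exact mem_iUnion.2 ⟨i, p, hp, rfl⟩
  refine equidec_of (ι := Fin k × Fin l) (fun t => P t.1 ∩ {p | act (h t.1) p ∈ Q t.2})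
    (fun t => g t.2 * h t.1) (fun t => star_inter (hP _) (star_preimage _ (hQ _))) ?_ ?_ ?_ ?_
  · rintro ⟨i, j⟩ ⟨i', j'⟩ hne
    rw [Set.disjoint_left]
    rintro p ⟨hp1, hp2⟩ ⟨hp3, hp4⟩
    by_cases hi : i = i'
    · subst hi
      have hj : j ≠ j' := fun hj => hne (by rw [hj])
      exact Set.disjoint_left.1 (he j j' hj) hp2 hp4
    · exact Set.disjoint_left.1 (hd i i' hi) hp1 hp3
  · rintro ⟨i, j⟩ ⟨i', j'⟩ hne
    rw [Set.disjoint_left]
    rintro _ ⟨p, ⟨hp1, hp2⟩, rfl⟩ ⟨q, ⟨hq1, hq2⟩, hqp⟩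
    simp only [act_mul] at hqp
    simp only [mem_ofPred_eq] at hp2 hq2
    by_cases hj : j = j'
    · subst hj
      have hi : i ≠ i' := fun hi => hne (by rw [hi])
      have h3 := act_inj _ hqp
      exact Set.disjoint_left.1 (hd' i i' hi) ⟨p, hp1, rfl⟩ ⟨q, hq1, h3⟩
    · exact Set.disjoint_left.1 (he' j j' hj) ⟨_, hp2, rfl⟩ ⟨_, hq2, hqp⟩
  · rw [← hA]
    ext p
    simp only [mem_iUnion]
    constructor
    · rintro ⟨t, ht, _⟩
      exact ⟨t.1, ht⟩
    · rintro ⟨i, hi⟩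
      have h3 := hPA i p hi
      rw [← hB'] at h3
      obtain ⟨j, hj⟩ := mem_iUnion.1 h3
      exact ⟨(i, j), hi, hj⟩
  · rw [← hC]
    ext c
    simp only [mem_iUnion]
    constructor
    · rintro ⟨t, p, ⟨hp1, hp2⟩, rfl⟩
      refine ⟨t.2, act (h t.1) p, hp2, ?_⟩
      rw [act_mul]
    · rintro ⟨j, b, hb, rfl⟩
      have hbB : b ∈ B := by
        rw [← hB']
        exact mem_iUnion.2 ⟨j, hb⟩
      rw [← hB] at hbB
      obtain ⟨i, p, hp, rfl⟩ := mem_iUnion.1 hbB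
      exact ⟨(i, j), p, ⟨hp, hb⟩, act_mul _ _ _⟩

theorem equidec_union {A A' B B' : Set (X × ℕ)} (h1 : 𝒜.Equidec A A') (h2 : 𝒜.Equidec B B')
    (hAB : Disjoint A B) (hAB' : Disjoint A' B') : 𝒜.Equidec (A ∪ B) (A' ∪ B') := by
  obtain ⟨k, P, h, hP, hd, hA, hd', hA'⟩ := h1
  obtain ⟨l, Q, g, hQ, he, hB, he', hB'⟩ := h2
  have hPA : ∀ i, P i ⊆ A := fun i => by rw [← hA]; exact subset_iUnion P i
  have hQB : ∀ i, Q i ⊆ B := fun i => by rw [← hB]; exact subset_iUnion Q i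
  have hPA' : ∀ i, act (h i) '' P i ⊆ A' := fun i => by
    rw [← hA']; exact subset_iUnion (fun i => act (h i) '' P i) i
  have hQB' : ∀ i, act (g i) '' Q i ⊆ B' := fun i => by
    rw [← hB']; exact subset_iUnion (fun i => act (g i) '' Q i) i
  refine equidec_of (ι := Fin k ⊕ Fin l) (Sum.elim P Q) (Sum.elim h g) ?_ ?_ ?_ ?_ ?_
  · rintro (i | i)
    · exact hP i
    · exact hQ i
  · rintro (i | i) (j | j) hij
    · exact hd i j (fun h => hij (by rw [h]))
    · exact (hAB.mono_left (hPA i)).mono_right (hQB j)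
    · exact ((hAB.mono_left (hPA j)).mono_right (hQB i)).symm
    · exact he i j (fun h => hij (by rw [h]))
  · rintro (i | i) (j | j) hij
    · exact hd' i j (fun h => hij (by rw [h]))
    · exact (hAB'.mono_left (hPA' i)).mono_right (hQB' j)
    · exact ((hAB'.mono_left (hPA' j)).mono_right (hQB' i)).symm
    · exact he' i j (fun h => hij (by rw [h]))
  · rw [← hA, ← hB]
    ext p
    simp only [mem_iUnion, mem_union, Sum.exists, Sum.elim_inl, Sum.elim_inr]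
  · rw [← hA', ← hB']
    ext p
    simp only [mem_iUnion, mem_union, Sum.exists, Sum.elim_inl, Sum.elim_inr]

theorem level_spec {A : Set (X × ℕ)} (hA : A ∈ 𝒜.star) : ∀ p ∈ A, p.2 < level A := by
  have h : {n | ∀ p ∈ A, p.2 < n}.Nonempty := by
    obtain ⟨⟨n, hn⟩, _⟩ := mem_star_iff.1 hA
    exact ⟨n, hn⟩
  exact Nat.sInf_mem h

theorem shift_equidec (N : ℕ) {B : Set (X × ℕ)} (hB : B ∈ 𝒜.star) : 𝒜.Equidec B (shift N B) := by
  obtain ⟨⟨n, hn⟩, _⟩ := mem_star_iff.1 hB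
  have himg : ∀ m : Fin n, act ((1 : G), Equiv.swap (m : ℕ) (m + N)) '' {p ∈ B | p.2 = m} =
      {p | ∃ q ∈ B, q.2 = m ∧ p = (q.1, q.2 + N)} := by
    intro m
    ext p
    constructor
    · rintro ⟨q, ⟨hq, hqm⟩, rfl⟩
      refine ⟨q, hq, hqm, ?_⟩
      simp only [act, one_smul]
      rw [hqm, Equiv.swap_apply_left]
    · rintro ⟨q, hq, hqm, rfl⟩
      refine ⟨q, ⟨hq, hqm⟩, ?_⟩
      simp only [act, one_smul]
      rw [hqm, Equiv.swap_apply_left]
  refine equidec_of (ι := Fin n) (fun m => {p ∈ B | p.2 = m})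
    (fun m => ((1 : G), Equiv.swap (m : ℕ) (m + N))) (fun m => star_level _ hB) ?_ ?_ ?_ ?_
  · intro i j hij
    rw [Set.disjoint_left]
    rintro p ⟨_, h1⟩ ⟨_, h2⟩
    exact hij (Fin.ext (h1.symm.trans h2))
  · intro i j hij
    rw [himg, himg, Set.disjoint_left]
    rintro _ ⟨q, _, h1, rfl⟩ ⟨q', _, h2, h3⟩
    have h4 : q.2 + N = q'.2 + N := congrArg Prod.snd h3
    exact hij (Fin.ext (by omega))
  · ext p
    simp only [mem_iUnion]
    constructor
    · rintro ⟨m, hm, _⟩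
      exact hm
    · intro hp
      exact ⟨⟨p.2, hn p hp⟩, hp, rfl⟩
  · simp only [himg]
    ext p
    simp only [mem_iUnion]
    constructor
    · rintro ⟨m, q, hq, _, rfl⟩
      exact ⟨q, hq, rfl⟩
    · rintro ⟨q, hq, rfl⟩
      exact ⟨⟨q.2, hn q hq⟩, q, hq, rfl, rfl⟩

theorem star_of_equidec {A B : Set (X × ℕ)} (h : 𝒜.Equidec A B) : B ∈ 𝒜.star := by
  obtain ⟨k, P, h, hP, _, _, _, hB⟩ := h
  rw [← hB]
  have : ∀ (s : Finset (Fin k)), (⋃ i ∈ s, act (h i) '' P i) ∈ 𝒜.star := by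
    intro s
    classical
    induction s using Finset.induction_on with
    | empty => simpa using star_empty
    | insert a s _ ih =>
      rw [Finset.set_biUnion_insert]
      exact star_union (star_act _ (hP a)) ih
  simpa using this Finset.univ

theorem shift_star (N : ℕ) {B : Set (X × ℕ)} (hB : B ∈ 𝒜.star) : shift N B ∈ 𝒜.star :=
  star_of_equidec (shift_equidec N hB)

theorem sum_star {A B : Set (X × ℕ)} (hA : A ∈ 𝒜.star) (hB : B ∈ 𝒜.star) :
    sumSet A B ∈ 𝒜.star := star_union hA (shift_star _ hB)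

theorem sum_disj {A B : Set (X × ℕ)} (hA : A ∈ 𝒜.star) : Disjoint A (shift (level A) B) := by
  rw [Set.disjoint_left]
  rintro p hp ⟨q, hq, rfl⟩
  have := level_spec hA _ hp
  simp only at this
  omega

/-- the sum is any disjoint union of equidecomposable sets -/
theorem sum_equidec {A B A' B' : Set (X × ℕ)} (hA : A ∈ 𝒜.star) (hB : B ∈ 𝒜.star)
    (h1 : 𝒜.Equidec A A') (h2 : 𝒜.Equidec B B') (hd : Disjoint A' B') :
    𝒜.Equidec (sumSet A B) (A' ∪ B') :=
  equidec_union h1 (equidec_trans (equidec_symm (shift_equidec _ hB)) h2) (sum_disj hA) hd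

/-- equidecomposability in `𝒜` as an equivalence relation on `𝒜*` -/
def InvAlgebra.setoid (𝒜 : InvAlgebra G X) : Setoid 𝒜.star where
  r A B := 𝒜.Equidec A.1 B.1
  iseqv := ⟨fun A => equidec_refl A.2, equidec_symm, equidec_trans⟩

/-- the set `𝒮(𝒜)` of the types `[A]`, `A ∈ 𝒜*` -/
def InvAlgebra.Types (𝒜 : InvAlgebra G X) : Type := Quotient 𝒜.setoid

/-- the type of a member of `𝒜*` -/
def InvAlgebra.type (𝒜 : InvAlgebra G X) (A : Set (X × ℕ)) (hA : A ∈ 𝒜.star) : 𝒜.Types :=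
  Quotient.mk 𝒜.setoid ⟨A, hA⟩

theorem type_eq {A B : Set (X × ℕ)} (hA : A ∈ 𝒜.star) (hB : B ∈ 𝒜.star) :
    𝒜.type A hA = 𝒜.type B hB ↔ 𝒜.Equidec A B :=
  Quotient.eq (r := 𝒜.setoid)

/-- the sum of two types: `[A] + [B] = [A ∪ B']`, `B'` a shift of `B` above the levels of `A` -/
noncomputable def InvAlgebra.add (𝒜 : InvAlgebra G X) : 𝒜.Types → 𝒜.Types → 𝒜.Types :=
  Quotient.map₂ (fun A B => ⟨sumSet A.1 B.1, sum_star A.2 B.2⟩) (by
    intro A A' hA B B' hB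
    exact equidec_trans (sum_equidec A.2 B.2 hA (equidec_trans hB (shift_equidec _ B'.2))
      (sum_disj A'.2)) (equidec_refl (sum_star A'.2 B'.2)))

noncomputable instance (𝒜 : InvAlgebra G X) : Add 𝒜.Types := ⟨𝒜.add⟩

instance (𝒜 : InvAlgebra G X) : Zero 𝒜.Types := ⟨𝒜.type ∅ star_empty⟩

noncomputable instance (𝒜 : InvAlgebra G X) : AddCommMonoid 𝒜.Types where
  add_assoc := by
    rintro ⟨A⟩ ⟨B⟩ ⟨C⟩
    apply (type_eq (sum_star (sum_star A.2 B.2) C.2) (sum_star A.2 (sum_star B.2 C.2))).2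
    refine equidec_trans (sum_equidec (sum_star A.2 B.2) C.2
      (sum_equidec A.2 B.2 (equidec_refl A.2) (shift_equidec (level A.1) B.2) (sum_disj A.2))
      (shift_equidec (level (sumSet A.1 B.1)) C.2) (sum_disj (sum_star A.2 B.2))) ?_
    rw [union_assoc]
    refine equidec_union (equidec_refl A.2) ?_ ?_ (sum_disj A.2)
    · refine equidec_trans ?_ (shift_equidec _ (sum_star B.2 C.2))
      refine equidec_symm (sum_equidec B.2 C.2 (shift_equidec _ B.2) (shift_equidec _ C.2) ?_)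
      exact (sum_disj (sum_star A.2 B.2)).mono_left subset_union_right
    · rw [Set.disjoint_union_right]
      exact ⟨sum_disj A.2, (sum_disj (sum_star A.2 B.2)).mono_left subset_union_left⟩
  zero_add := by
    rintro ⟨A⟩
    apply (type_eq (sum_star star_empty A.2) A.2).2
    have := sum_equidec (𝒜 := 𝒜) star_empty A.2 (equidec_refl star_empty) (equidec_refl A.2)
      (Set.empty_disjoint _)
    rwa [empty_union] at this
  add_zero := by
    rintro ⟨A⟩
    apply (type_eq (sum_star A.2 star_empty) A.2).2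
    have := sum_equidec (𝒜 := 𝒜) A.2 star_empty (equidec_refl A.2) (equidec_refl star_empty)
      (Set.disjoint_empty _)
    rwa [union_empty] at this
  nsmul := nsmulRec
  add_comm := by
    rintro ⟨A⟩ ⟨B⟩
    apply (type_eq (sum_star A.2 B.2) (sum_star B.2 A.2)).2
    have h1 := sum_equidec (𝒜 := 𝒜) A.2 B.2 (shift_equidec (level B.1) A.2) (equidec_refl B.2)
      (sum_disj B.2).symm
    rw [union_comm] at h1
    exact h1

theorem add_type {A B : Set (X × ℕ)} (hA : A ∈ 𝒜.star) (hB : B ∈ 𝒜.star) :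
    𝒜.type A hA + 𝒜.type B hB = 𝒜.type (sumSet A B) (sum_star hA hB) := rfl

theorem add_type_of_disjoint {A B : Set (X × ℕ)} (hA : A ∈ 𝒜.star) (hB : B ∈ 𝒜.star)
    (hd : Disjoint A B) : 𝒜.type A hA + 𝒜.type B hB = 𝒜.type (A ∪ B) (star_union hA hB) := by
  rw [add_type, type_eq]
  exact sum_equidec hA hB (equidec_refl hA) (equidec_refl hB) hd

end Pool.Agent.L0h40.EQ
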