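import Pool.Agent.L0h40.EQ.Circ

set_option autoImplicit false

/-!
# The two half circles are not equidecomposable
-/

namespace Pool.Agent.L0h40.EQ

open Set MeasureTheory Filter

theorem qmp_reflection (c : Circ) :
    Measure.QuasiMeasurePreserving (reflection c : Circ → Circ) volume volume := by
  have h : MeasurePreserving (reflection c : Circ → Circ) volume volume :=
    Measure.measurePreserving_sub_left volume (c + c)
  exact h.quasiMeasurePreserving

/-- the differences -/
def NN (τ : Circ) : AddSubgroup (Circ → ℤ) where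
  carrier := {f | ∃ u v : Circ → ℤ, AEMeasurable u volume ∧ AEMeasurable v volume ∧
    ∀ x, f x = (u x - u (reflection 0 x)) + (v x - v (reflection τ x))}
  zero_mem' := ⟨0, 0, aemeasurable_const, aemeasurable_const, fun x => by simp⟩
  add_mem' := by
    rintro f g ⟨u, v, hu, hv, h⟩ ⟨u', v', hu', hv', h'⟩
    refine ⟨u + u', v + v', hu.add hu', hv.add hv', fun x => ?_⟩
    simp only [Pi.add_apply, h, h']
    ring
  neg_mem' := by
    rintro f ⟨u, v, hu, hv, h⟩
    refine ⟨-u, -v, hu.neg, hv.neg, fun x => ?_⟩
    simp only [Pi.neg_apply, h]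
    ring

/-- good permutations -/
def Good (τ : Circ) (g : Equiv.Perm Circ) : Prop := ∀ u : Circ → ℤ, AEMeasurable u volume →
  AEMeasurable (fun x => u (g x)) volume ∧ (fun x => u x - u (g x)) ∈ NN τ

theorem good_zero (τ : Circ) : Good τ (reflection 0) := by
  intro u hu
  refine ⟨hu.comp_quasiMeasurePreserving (qmp_reflection 0), u, 0, hu, aemeasurable_const,
    fun x => by simp⟩

theorem good_tau (τ : Circ) : Good τ (reflection τ) := by
  intro u hu
  refine ⟨hu.comp_quasiMeasurePreserving (qmp_reflection τ), 0, u, aemeasurable_const, hu,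
    fun x => by simp⟩

theorem good_one (τ : Circ) : Good τ 1 := by
  intro u hu
  refine ⟨hu, ?_⟩
  have : (fun x => u x - u ((1 : Equiv.Perm Circ) x)) = 0 := by
    ext x; simp
  rw [this]
  exact (NN τ).zero_mem

theorem good_mul {τ : Circ} {g h : Equiv.Perm Circ} (hg : Good τ g) (hh : Good τ h) :
    Good τ (g * h) := by
  intro u hu
  obtain ⟨h1, h2⟩ := hg u hu
  obtain ⟨h3, h4⟩ := hh _ h1
  refine ⟨h3, ?_⟩
  have : (fun x => u x - u ((g * h) x)) =
      (fun x => u x - u (g x)) + fun x => u (g x) - u (g (h x)) := by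
    ext x
    simp only [Pi.add_apply, Equiv.Perm.mul_apply]
    ring
  rw [this]
  exact (NN τ).add_mem h2 h4

theorem good_of_mem {τ : Circ} {g : Equiv.Perm Circ} (hg : g ∈ Dih τ) :
    Good τ g ∧ Good τ g⁻¹ := by
  unfold Dih at hg
  induction hg using Subgroup.closure_induction with
  | mem x hx =>
    rcases hx with rfl | hx
    · rw [reflection_inv]; exact ⟨good_zero τ, good_zero τ⟩
    · rw [mem_singleton_iff] at hx
      subst hx
      rw [reflection_inv]; exact ⟨good_tau τ, good_tau τ⟩
  | one => rw [inv_one]; exact ⟨good_one τ, good_one τ⟩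
  | mul x y _ _ hx hy =>
    rw [mul_inv_rev]
    exact ⟨good_mul hx.1 hy.1, good_mul hy.2 hx.2⟩
  | inv x _ hx => rw [inv_inv]; exact ⟨hx.2, hx.1⟩

/-- the indicator function -/
noncomputable def ind (A : Set Circ) : Circ → ℤ := A.indicator fun _ => 1

theorem ind_ae {A : Set Circ} (hA : NullMeasurableSet A volume) : AEMeasurable (ind A) volume :=
  (aemeasurable_indicator_const_iff (1 : ℤ)).2 hA

theorem vol_singleton (c : Circ) : volume ({c} : Set Circ) = 0 := by
  rw [← Metric.closedBall_zero, AddCircle.volume_closedBall]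
  simp

theorem ind_half (c : Circ) : ∀ᵐ x : Circ, ind (halfCircle c) x + ind (halfCircle c) (reflection c x) = 1 := by
  have h0 : volume ({c, c + ((1 / 2 : ℝ) : Circ)} : Set Circ) = 0 := by
    rw [insert_eq]
    exact measure_union_null (vol_singleton _) (vol_singleton _)
  rw [ae_iff]
  refine measure_mono_null ?_ h0
  intro x hx
  by_contra hcon
  apply hx
  simp only [mem_insert_iff, mem_singleton_iff, not_or] at hcon
  unfold ind
  rcases cover_half c x with h1 | h1 | h1 | h1
  · rw [indicator_of_mem h1, indicator_of_notMem (disj_half c x h1)]; rfl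
  · have h2 : x ∉ halfCircle c := fun h3 => disj_half c x h3 h1
    rw [indicator_of_mem h1, indicator_of_notMem h2]; rfl
  · exact (hcon.1 h1).elim
  · exact (hcon.2 h1).elim

/-- no integer valued measurable function changes to `1 - w` under both reflections -/
theorem no_w {τ : Circ} (hτ : addOrderOf τ = 0) (w : Circ → ℤ) (hw : AEMeasurable w volume)
    (h0 : ∀ᵐ x : Circ, w x + w (reflection 0 x) = 1)
    (h1 : ∀ᵐ x : Circ, w x + w (reflection τ x) = 1) : False := by
  have hθ : addOrderOf (τ + τ) = 0 := by
    rw [addOrderOf_eq_zero_iff']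
    intro n hn
    exact two_ne hτ hn.ne'
  have herg : Ergodic (fun x : Circ => (τ + τ) + x) volume :=
    (AddCircle.ergodic_add_left (p := 1) (a := τ + τ)).2 hθ
  have h2 : ∀ᵐ x : Circ, w (reflection 0 x) + w (reflection τ (reflection 0 x)) = 1 :=
    (qmp_reflection 0).ae (p := fun y => w y + w (reflection τ y) = 1) h1
  have h3 : w ∘ (fun x : Circ => (τ + τ) + x) =ᵐ[volume] w := by
    filter_upwards [h0, h2] with x hx0 hx2
    have : reflection τ (reflection 0 x) = (τ + τ) + x := by
      rw [reflection_apply, reflection_apply]; abel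
    rw [this] at hx2
    simp only [Function.comp]
    omega
  obtain ⟨c, hc⟩ := herg.quasiErgodic.ae_eq_const_of_ae_eq_comp₀ hw.nullMeasurable h3
  have h4 : ∀ᵐ x : Circ, w (reflection 0 x) = c := by
    have := (qmp_reflection 0).ae hc
    filter_upwards [this] with x hx
    exact hx
  have h5 : ∀ᵐ x : Circ, c + c = 1 := by
    filter_upwards [h0, hc, h4] with x hx hx1 hx2
    rw [← hx, hx2, hx1]
    rfl
  obtain ⟨x, hx⟩ := h5.exists
  omega

theorem not_equidec {τ : Circ} (hτ : addOrderOf τ = 0) {𝒜 : InvAlgebra (Dih τ) Circ}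
    (hL : ∀ s ∈ 𝒜.sets, NullMeasurableSet s volume) :
    ¬ 𝒜.Equidec (base (halfCircle 0)) (base (halfCircle τ)) := by
  intro h
  have h1 := invariant_eq (𝒜 := 𝒜) (N := (Circ → ℤ) ⧸ NN τ)
    (fun A => (QuotientAddGroup.mk (ind A) : (Circ → ℤ) ⧸ NN τ)) ?_ ?_ ?_ h
  · rw [QuotientAddGroup.eq] at h1
    obtain ⟨u, v, hu, hv, huv⟩ := h1
    refine no_w hτ (fun x => ind (halfCircle 0) x + (u x - u (reflection 0 x))) ?_ ?_ ?_
    · exact (ind_ae (measurable_half 0).nullMeasurableSet).add
        (hu.sub (hu.comp_quasiMeasurePreserving (qmp_reflection 0)))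
    · filter_upwards [ind_half 0] with x hx
      simp only [reflection_reflection]
      linarith
    · filter_upwards [ind_half τ] with x hx
      have e1 := huv x
      have e2 := huv (reflection τ x)
      simp only [Pi.add_apply, Pi.neg_apply, reflection_reflection] at e1 e2
      linarith
  · have : ind ∅ = 0 := by
      ext x; simp [ind]
    rw [this]; rfl
  · intro A _ B _ hAB
    have : ind (A ∪ B) = ind A + ind B := indicator_union_of_disjoint hAB _
    rw [this]; rfl
  · intro g A hA
    rw [QuotientAddGroup.eq]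
    have h2 := (good_of_mem g.2).1 (ind ((fun x => g • x) '' A))
      (ind_ae (hL _ (𝒜.smul_mem g A hA)))
    have h3 : ∀ x, ind ((fun x => g • x) '' A) ((g : Equiv.Perm Circ) x) = ind A x := by
      intro x
      unfold ind
      by_cases hx : x ∈ A
      · rw [indicator_of_mem hx, indicator_of_mem]
        exact ⟨x, hx, rfl⟩
      · rw [indicator_of_notMem hx, indicator_of_notMem]
        rintro ⟨y, hy, hyx⟩
        have : y = x := (g : Equiv.Perm Circ).injective hyx
        exact hx (this ▸ hy)
    have h4 := (NN τ).neg_mem h2.2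
    have h5 : -(ind ((fun x => g • x) '' A)) + ind A =
        -(fun x => ind ((fun x => g • x) '' A) x - ind ((fun x => g • x) '' A)
          ((g : Equiv.Perm Circ) x)) := by
      ext x
      simp only [Pi.add_apply, Pi.neg_apply, h3]
      ring
    rw [h5]
    exact h4

end Pool.Agent.L0h40.EQ
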